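import Pool.Agent.W886.AM.Stm0

/-!
# Relative to a random oracle with polynomially many changes, `AM = NP`
-/

set_option autoImplicit false

namespace Pool.Agent.W246.AMNP

open MeasureTheory Finset
open Pool.Agent.NPC Pool.Agent.H622R2
open Pool.Agent.H628R3.RO (randomOracle)
open Pool.Agent.H620R2.Gauge
open Pool.Agent.W895.MA
open Pool.Agent.W900.RB Pool.Agent.W900
open Pool.Agent.W886.AM (S_AMP S_AMNP)

/-- some message makes the verifier accept with the random string `w` -/
def Ok (M : Alg) (P : Polynomial ℕ) (A : Oracle) (x w : List Bool) : Prop :=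
  ∃ y : List Bool, y.length ≤ P.eval x.length ∧
    M.out A (pairBits w (pairBits y x)) = some [true]

/-- the majority of 2048 runs -/
def Acc (M : Alg) (P : Polynomial ℕ) (A : Oracle) (r x : List Bool) : Prop :=
  1024 < Set.ncard {k : ℕ | k < 2048 ∧
    Ok M P A x ((r.drop (k * P.eval x.length)).take (P.eval x.length))}

/-- the bound for the questions -/
noncomputable def qA (M : Alg) (P : Polynomial ℕ) : Polynomial ℕ :=
  (SP.out_local M).choose.comp (Polynomial.C 4 * P + Polynomial.X + Polynomial.C 2) +
    Polynomial.X

theorem qA_ge (M : Alg) (P : Polynomial ℕ) (n : ℕ) : n ≤ (qA M P).eval n := by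
  unfold qA
  rw [Polynomial.eval_add, Polynomial.eval_X]
  exact Nat.le_add_left _ _

theorem ok_local (M : Alg) (P : Polynomial ℕ) (n : ℕ) (A A' : Oracle) (x w : List Bool)
    (hx : x.length = n) (hw : w.length ≤ P.eval n)
    (h : ∀ y : List Bool, y.length ≤ (qA M P).eval n → A y = A' y) :
    Ok M P A x w ↔ Ok M P A' x w := by
  have h2 : ∀ y : List Bool, y.length ≤ P.eval x.length →
      M.out A (pairBits w (pairBits y x)) = M.out A' (pairBits w (pairBits y x)) := by
    intro y hy
    apply (SP.out_local M).choose_spec
    intro u hu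
    apply h
    refine hu.trans ?_
    unfold qA
    rw [Polynomial.eval_add, Polynomial.eval_comp]
    refine le_trans (eval_mono _ ?_) (Nat.le_add_right _ _)
    rw [A2.length_pairBits, A2.length_pairBits]
    simp only [Polynomial.eval_add, Polynomial.eval_mul, Polynomial.eval_C, Polynomial.eval_X]
    rw [hx] at hy ⊢
    omega
  unfold Ok
  constructor
  · rintro ⟨y, hy, e⟩
    exact ⟨y, hy, by rw [← h2 y hy]; exact e⟩
  · rintro ⟨y, hy, e⟩
    exact ⟨y, hy, by rw [h2 y hy]; exact e⟩

theorem acc_local (M : Alg) (P : Polynomial ℕ) (n : ℕ) (A A' : Oracle) (r x : List Bool)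
    (hx : x.length = n)
    (h : ∀ y : List Bool, y.length ≤ (qA M P).eval n → A y = A' y) :
    Acc M P A r x ↔ Acc M P A' r x := by
  unfold Acc
  have e : {k : ℕ | k < 2048 ∧
      Ok M P A x ((r.drop (k * P.eval x.length)).take (P.eval x.length))} =
      {k : ℕ | k < 2048 ∧
      Ok M P A' x ((r.drop (k * P.eval x.length)).take (P.eval x.length))} := by
    ext k
    rw [Set.mem_ofPred_eq, Set.mem_ofPred_eq, ok_local M P n A A' x _ hx (by
      rw [List.length_take, hx]; exact min_le_left _ _) h]
  rw [e]

theorem blk_sample (A : Oracle) (q n m i k : ℕ) (hk : k < 2048) :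
    ((sample A q n (2048 * m) i).drop (k * m)).take m = sample A q n m (2048 * i + k) := by
  have h0 : (k + 1) * m ≤ 2048 * m := Nat.mul_le_mul_right _ hk
  rw [Nat.add_mul, one_mul] at h0
  unfold sample
  apply List.ext_getElem
  · rw [List.length_take, List.length_drop, List.length_ofFn, List.length_ofFn]
    omega
  · intro j h1 h2
    rw [List.getElem_take, List.getElem_drop, List.getElem_ofFn, List.getElem_ofFn]
    have e : i * (2048 * m) + (k * m + j) = (2048 * i + k) * m + j := by ring
    show A (RB.smp q n (i * (2048 * m) + (k * m + j))) =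
      A (RB.smp q n ((2048 * i + k) * m + j))
    rw [e]

/-- the messages in a certificate -/
def ysOf (z : List Bool) : List (List Bool) :=
  (unbits (List (List Bool)) (unpair z).1).getD []

theorem ysOf_pair (ys : List (List Bool)) (x : List Bool) :
    ysOf (pairBits (bits ys) x) = ys := by
  unfold ysOf
  rw [unpair_pairBits, unbits_bits]
  rfl

theorem poly_ysOf : Poly ysOf := by
  have h1 : Poly (fun z : List Bool => unbits (List (List Bool)) (unpair z).1) :=
    poly_unbits.comp (Poly.fst poly_unpair)
  refine (Poly.optCases (o := fun z : List Bool => unbits (List (List Bool)) (unpair z).1)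
    (g := fun _ => ([] : List (List Bool))) (h := fun _ b => b) h1 (NPC.Poly.const _)
    (Poly.snd Poly.id)).congr fun z => ?_
  unfold ysOf
  cases unbits (List (List Bool)) (unpair z).1 <;> rfl

/-- the input of the verifier in a run -/
noncomputable def WN (P : Polynomial ℕ) (y : (ℕ × List Bool) × List Bool) : List Bool :=
  pairBits y.2 (pairBits (((ysOf y.1.2).getD y.1.1 []).take (P.eval (unpair y.1.2).2.length))
    (unpair y.1.2).2)

theorem poly_WN (P : Polynomial ℕ) : Poly (WN P) := by
  have h1 : Poly (fun y : (ℕ × List Bool) × List Bool => y.1.2) := Poly.snd (Poly.fst Poly.id)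
  have h2 : Poly (fun y : (ℕ × List Bool) × List Bool => (unpair y.1.2).2) :=
    Poly.snd (poly_unpair.comp h1)
  have h3 : Poly (fun y : (ℕ × List Bool) × List Bool => (ysOf y.1.2).getD y.1.1 []) :=
    Poly.getD (poly_ysOf.comp h1) (Poly.fst (Poly.fst Poly.id)) (NPC.Poly.const _)
  unfold WN
  exact poly_pairBits (Poly.snd Poly.id) (poly_pairBits
    (R1.poly_take h3 ((UPoly.length h2).eval P)) h2)

/-- the decision by a vote of votes, with a table for the short inputs -/
noncomputable def HN (τ : Polynomial ℕ) (n₂ : ℕ) (tbl : List (List Bool))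
    (y : List Bool × List Bool) : List Bool :=
  if (unpair y.1).2.length < n₂ then
    (if tbl.any (fun z => decide ((unpair y.1).2 = z)) = true then [true] else [])
  else if 2 * τ.eval (unpair y.1).2.length <
    ((List.range (4 * τ.eval (unpair y.1).2.length)).filter (fun i => decide (1024 <
      ((List.range 2048).filter (fun k => y.2.getD (2048 * i + k) false)).length))).length
    then [true] else []

theorem poly_HN (τ : Polynomial ℕ) (n₂ : ℕ) (tbl : List (List Bool)) : Poly (HN τ n₂ tbl) := by
  have h1 : Poly (fun y : List Bool × List Bool => (unpair y.1).2) :=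
    Poly.snd (poly_unpair.comp (Poly.fst Poly.id))
  have h2 : UPoly (fun y : List Bool × List Bool => τ.eval (unpair y.1).2.length) :=
    (UPoly.length h1).eval τ
  unfold HN
  refine Poly.ite (Poly.decide_lt (Poly.length h1) (NPC.Poly.const _)) ?_ ?_
  · refine Poly.ite (Poly.decide_bool ?_) (NPC.Poly.const _) (NPC.Poly.const _)
    exact Poly.any (p := fun (y : List Bool × List Bool) (z : List Bool) =>
      decide ((unpair y.1).2 = z)) (NPC.Poly.const tbl)
      (Poly.decide_eq (h1.comp (Poly.fst Poly.id)) (Poly.snd Poly.id))
  · refine Poly.ite (Poly.decide_lt (Poly.mul (NPC.Poly.const 2) h2.toPoly)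
      (Poly.length ?_)) (NPC.Poly.const _) (NPC.Poly.const _)
    refine Poly.filter (p := fun (y : List Bool × List Bool) (i : ℕ) => decide (1024 <
      ((List.range 2048).filter (fun k => y.2.getD (2048 * i + k) false)).length))
      (((UPoly.const 4).mul h2).range) ?_
    refine Poly.decide_lt (NPC.Poly.const _) (Poly.length ?_)
    refine Poly.filter (p := fun (y : (List Bool × List Bool) × ℕ) (k : ℕ) =>
      y.1.2.getD (2048 * y.2 + k) false) (NPC.Poly.const _) ?_
    exact Poly.getD (Poly.snd (Poly.fst (Poly.fst Poly.id)))
      (Poly.add (Poly.mul (NPC.Poly.const _) (Poly.snd (Poly.fst Poly.id))) (Poly.snd Poly.id))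
      (NPC.Poly.const _)

theorem len_filter (t : ℕ) (f : ℕ → Bool) :
    ((List.range t).filter f).length = ((range t).filter (fun i => f i = true)).card := by
  rw [← List.toFinset_card_of_nodup (List.nodup_range.filter _)]
  congr 1
  ext i
  simp

theorem card_fin_filter (t : ℕ) (p : ℕ → Prop) [DecidablePred p] :
    (univ.filter fun i : Fin t => p i).card = ((range t).filter p).card := by
  rw [card_filter, card_filter, Fin.sum_univ_eq_sum_range (fun i => if p i then 1 else 0)]

open Classical in
theorem isNP_of_votes {A : Oracle} {L : Set (List Bool)} {V : List Bool → List Bool} (M : Alg)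
    (hM : ∀ z, M.out A z = some (V z)) (q P τ : Polynomial ℕ)
    (h : ∀ᶠ n : ℕ in Filter.atTop, ∀ x : List Bool, x.length = n →
      ((range (4 * τ.eval n)).filter fun i : ℕ =>
        ¬ (Acc M P A (sample A (q.eval n) n (2048 * P.eval n) i) x ↔ x ∈ L)).card <
          2 * τ.eval n) : IsNP A L := by
  obtain ⟨n₂, hn₂⟩ := Filter.eventually_atTop.1 h
  obtain ⟨tbl, htbl⟩ : ∃ tbl : List (List Bool), ∀ x, x ∈ tbl ↔ x ∈ L ∧ x.length < n₂ := by
    have hf : {x : List Bool | x ∈ L ∧ x.length < n₂}.Finite :=
      (CH.finite_short n₂).subset fun x hx => hx.2.le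
    refine ⟨hf.toFinset.toList, fun x => ?_⟩
    rw [mem_toList, Set.Finite.mem_toFinset]
    exact Iff.rfl
  have hQ : Poly (fun y : ℕ × List Bool => Qs q P (y.1, (unpair y.2).2)) :=
    (poly_Qs q P).comp (Poly.pair (Poly.fst Poly.id) (Poly.snd (poly_unpair.comp
      (Poly.snd Poly.id))))
  have hF := IsFP.votes (A := A) (V := V) ⟨M, hM⟩ (Polynomial.C 8192 * τ) hQ (poly_WN P)
    (poly_HN τ n₂ tbl)
  refine ⟨_, Polynomial.C 8192 * τ * (Polynomial.C 4 * P + Polynomial.C 2) + Polynomial.C 1, hF,
    fun x => ?_⟩
  -- the votes
  set vt : List Bool → ℕ → Bool := fun w j =>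
    decide (V (pairBits (sample A (q.eval x.length) x.length (P.eval x.length) j)
      (pairBits (((ysOf (pairBits w x)).getD j []).take (P.eval x.length)) x)) = [true]) with hvt
  have key : ∀ w : List Bool,
      HN τ n₂ tbl (pairBits w x, (List.range ((Polynomial.C 8192 * τ).eval
        (pairBits w x).length)).map (fun i => decide (V (WN P ((i, pairBits w x),
          (Qs q P (i, (unpair (pairBits w x)).2)).map A)) = [true]))) =
      if x.length < n₂ then
        (if tbl.any (fun z => decide (x = z)) = true then [true] else [])
      else if 2 * τ.eval x.length < ((List.range (4 * τ.eval x.length)).filter (fun i =>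
        decide (1024 < ((List.range 2048).filter (fun k => vt w (2048 * i + k))).length))).length
        then [true] else [] := by
    intro w
    unfold HN
    dsimp only
    rw [unpair_pairBits]
    dsimp only
    have e1 : ((List.range (4 * τ.eval x.length)).filter (fun i => decide (1024 <
        ((List.range 2048).filter (fun k => ((List.range ((Polynomial.C 8192 * τ).eval
        (pairBits w x).length)).map (fun i => decide (V (WN P ((i, pairBits w x),
          (Qs q P (i, x)).map A)) = [true]))).getD (2048 * i + k) false)).length))) =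
        ((List.range (4 * τ.eval x.length)).filter (fun i =>
        decide (1024 < ((List.range 2048).filter (fun k => vt w (2048 * i + k))).length))) := by
      apply List.filter_congr
      intro i hi
      rw [List.mem_range] at hi
      have hfil : (List.range 2048).filter (fun k => ((List.range ((Polynomial.C 8192 * τ).eval
        (pairBits w x).length)).map (fun i => decide (V (WN P ((i, pairBits w x),
          (Qs q P (i, x)).map A)) = [true]))).getD (2048 * i + k) false) =
          (List.range 2048).filter (fun k => vt w (2048 * i + k)) := ?_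
      · rw [hfil]
      apply List.filter_congr
      intro k hk
      rw [List.mem_range] at hk
      have hlen : 2048 * i + k < (Polynomial.C 8192 * τ).eval (pairBits w x).length := by
        rw [Polynomial.eval_mul, Polynomial.eval_C]
        have h1 : τ.eval x.length ≤ τ.eval (pairBits w x).length :=
          eval_mono _ (by rw [A2.length_pairBits]; omega)
        omega
      rw [List.getD_eq_getElem?_getD, List.getElem?_map, List.getElem?_range hlen]
      rw [hvt]
      unfold WN
      simp only [Option.map_some, Option.getD_some, unpair_pairBits]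
      rw [map_Qs]
    rw [e1]
  show x ∈ L ↔ ∃ w : List Bool, w.length ≤ (Polynomial.C 8192 * τ * (Polynomial.C 4 * P +
      Polynomial.C 2) + Polynomial.C 1).eval x.length ∧
      HN τ n₂ tbl (pairBits w x, (List.range ((Polynomial.C 8192 * τ).eval
        (pairBits w x).length)).map (fun i => decide (V (WN P ((i, pairBits w x),
          (Qs q P (i, (unpair (pairBits w x)).2)).map A)) = [true]))) = [true]
  simp only [key]
  by_cases hx : x.length < n₂
  · simp only [if_pos hx]
    have h1 : tbl.any (fun z => decide (x = z)) = true ↔ x ∈ L := by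
      rw [List.any_eq_true]
      constructor
      · rintro ⟨z, hz, h2⟩
        rw [decide_eq_true_eq] at h2
        subst h2
        exact ((htbl x).1 hz).1
      · intro h2
        exact ⟨x, (htbl x).2 ⟨h2, hx⟩, by simp⟩
    by_cases h2 : x ∈ L
    · rw [if_pos (h1.2 h2)]
      exact ⟨fun _ => ⟨[], Nat.zero_le _, rfl⟩, fun _ => h2⟩
    · rw [if_neg (fun h3 => h2 (h1.1 h3))]
      simp [h2]
  · simp only [if_neg hx]
    have h1 := hn₂ x.length (by omega) x rfl
    set n := x.length with hn
    set m := P.eval n with hm
    set t := τ.eval n with ht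
    -- the inner count
    have hin : ∀ w : List Bool, ∀ i, 1024 < ((List.range 2048).filter
        (fun k => vt w (2048 * i + k))).length →
        Acc M P A (sample A (q.eval n) n (2048 * m) i) x := by
      intro w i hi
      rw [len_filter] at hi
      unfold Acc
      refine lt_of_lt_of_le hi ?_
      rw [← Set.ncard_coe_finset]
      refine Set.ncard_le_ncard ?_ ((Set.finite_lt_nat 2048).subset fun k hk => hk.1)
      intro k hk
      rw [mem_coe, mem_filter, mem_range] at hk
      refine ⟨hk.1, ?_⟩
      rw [← hn, ← hm, blk_sample A _ _ _ _ _ hk.1]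
      have h2 := of_decide_eq_true hk.2
      refine ⟨_, ?_, by rw [hM, h2]⟩
      rw [List.length_take]
      exact min_le_left _ _
    have hsum := card_filter_add_card_filter_not (s := range (4 * t))
      (fun i => (Acc M P A (sample A (q.eval n) n (2048 * m) i) x ↔ x ∈ L))
    rw [card_range] at hsum
    constructor
    · intro hL
      set g : ℕ → List Bool := fun j => if hy : ∃ y : List Bool, y.length ≤ m ∧
        V (pairBits (sample A (q.eval n) n m j) (pairBits y x)) = [true] then hy.choose else []
        with hg
      have hgl : ∀ j, (g j).length ≤ m := by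
        intro j
        rw [hg]
        dsimp only
        split_ifs with hy
        · exact hy.choose_spec.1
        · exact Nat.zero_le _
      refine ⟨bits ((List.range (8192 * t)).map g), ?_, ?_⟩
      · rw [bits_length]
        refine (sz_le_length_mul _ (4 * m + 1) ?_).trans ?_
        · intro a ha
          rw [List.mem_map] at ha
          obtain ⟨j, -, rfl⟩ := ha
          refine (sz_listBool_le _).trans ?_
          have := hgl j
          omega
        · rw [List.length_map, List.length_range]
          simp only [Polynomial.eval_add, Polynomial.eval_mul, Polynomial.eval_C]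
          rw [← hm, ← ht]
      · rw [if_pos]
        rw [len_filter]
        have h3 : (range (4 * t)).filter
            (fun i => (Acc M P A (sample A (q.eval n) n (2048 * m) i) x ↔ x ∈ L)) ⊆
            (range (4 * t)).filter (fun i => decide (1024 < ((List.range 2048).filter (fun k =>
              vt (bits ((List.range (8192 * t)).map g)) (2048 * i + k))).length) = true) := by
          intro i hi
          rw [mem_filter] at hi ⊢
          refine ⟨hi.1, ?_⟩
          have hi1 := mem_range.1 hi.1
          rw [decide_eq_true_eq, len_filter]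
          have h4 := hi.2.2 hL
          unfold Acc at h4
          refine lt_of_lt_of_le h4 ?_
          rw [← Set.ncard_coe_finset]
          refine Set.ncard_le_ncard ?_ (Finset.finite_toSet _)
          intro k hk
          rw [← hn, ← hm] at hk
          rw [mem_coe, mem_filter, mem_range]
          refine ⟨hk.1, ?_⟩
          have h5 := hk.2
          rw [blk_sample A _ _ _ _ _ hk.1] at h5
          obtain ⟨y, hy1, hy2⟩ := h5
          rw [hM, Option.some.injEq] at hy2
          have hex : ∃ y : List Bool, y.length ≤ m ∧
            V (pairBits (sample A (q.eval n) n m (2048 * i + k)) (pairBits y x)) = [true] :=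
            ⟨y, hy1, hy2⟩
          have hk1 := hk.1
          rw [hvt]
          dsimp only
          rw [ysOf_pair, List.getD_eq_getElem?_getD, List.getElem?_map,
            List.getElem?_range (by omega), Option.map_some, Option.getD_some,
            List.take_of_length_le (hgl _), decide_eq_true_eq]
          have h6 : g (2048 * i + k) = hex.choose := by
            rw [hg]
            dsimp only
            rw [dif_pos hex]
          rw [h6]
          exact hex.choose_spec.2
        have h4 := card_le_card h3
        omega
    · rintro ⟨w, -, hw⟩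
      by_contra hL
      split_ifs at hw with hc
      · rw [len_filter] at hc
        have h3 : (range (4 * t)).filter (fun i => decide (1024 < ((List.range 2048).filter
            (fun k => vt w (2048 * i + k))).length) = true) ⊆ (range (4 * t)).filter
            (fun i => ¬ (Acc M P A (sample A (q.eval n) n (2048 * m) i) x ↔ x ∈ L)) := by
          intro i hi
          rw [mem_filter] at hi ⊢
          refine ⟨hi.1, fun h4 => hL (h4.1 (hin w i (of_decide_eq_true hi.2)))⟩
        have h4 := card_le_card h3
        omega

open Classical in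
theorem am_err {V : List Bool → List Bool} {m : ℕ} {x : List Bool} {L : Set (List Bool)}
    (h : (x ∈ L → 2 / 3 ≤ amPr V m x) ∧ (x ∉ L → amPr V m x ≤ 1 / 3)) :
    3 * Nat.card {w : Fin m → Bool // ¬ ((∃ y : List Bool, y.length ≤ m ∧
      V (pairBits (List.ofFn w) (pairBits y x)) = [true]) ↔ x ∈ L)} ≤ 2 ^ m := by
  rw [Nat.card_eq_fintype_card, Fintype.card_subtype]
  unfold amPr at h
  rw [Nat.card_eq_fintype_card, Fintype.card_subtype] at h
  have h5 := card_filter_add_card_filter_not (s := (univ : Finset (Fin m → Bool)))
    (fun w => ∃ y : List Bool, y.length ≤ m ∧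
      V (pairBits (List.ofFn w) (pairBits y x)) = [true])
  rw [card_univ, Fintype.card_fun, Fintype.card_bool, Fintype.card_fin] at h5
  have h7 : (0 : ℝ) < 2 ^ m := by positivity
  by_cases hL : x ∈ L
  · have h8 := h.1 hL
    rw [le_div_iff₀ h7] at h8
    have h9 : (univ.filter fun w : Fin m → Bool => ¬ ((∃ y : List Bool, y.length ≤ m ∧
        V (pairBits (List.ofFn w) (pairBits y x)) = [true]) ↔ x ∈ L)) =
        univ.filter fun w : Fin m → Bool => ¬ (∃ y : List Bool, y.length ≤ m ∧
        V (pairBits (List.ofFn w) (pairBits y x)) = [true]) := by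
      ext w
      simp only [mem_filter, hL, iff_true]
    rw [h9]
    have h10 : ((univ.filter fun w : Fin m → Bool => ∃ y : List Bool, y.length ≤ m ∧
        V (pairBits (List.ofFn w) (pairBits y x)) = [true]).card : ℝ) +
        ((univ.filter fun w : Fin m → Bool => ¬ ∃ y : List Bool, y.length ≤ m ∧
        V (pairBits (List.ofFn w) (pairBits y x)) = [true]).card : ℝ) = 2 ^ m := by
      exact_mod_cast h5
    have h11 : (3 : ℝ) * ((univ.filter fun w : Fin m → Bool => ¬ ∃ y : List Bool,
        y.length ≤ m ∧ V (pairBits (List.ofFn w) (pairBits y x)) = [true]).card : ℝ) ≤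
        2 ^ m := by linarith
    exact_mod_cast h11
  · have h8 := h.2 hL
    rw [div_le_iff₀ h7] at h8
    have h9 : (univ.filter fun w : Fin m → Bool => ¬ ((∃ y : List Bool, y.length ≤ m ∧
        V (pairBits (List.ofFn w) (pairBits y x)) = [true]) ↔ x ∈ L)) =
        univ.filter fun w : Fin m → Bool => (∃ y : List Bool, y.length ≤ m ∧
        V (pairBits (List.ofFn w) (pairBits y x)) = [true]) := by
      ext w
      simp only [mem_filter, hL, iff_false, not_not]
    rw [h9]
    have h11 : (3 : ℝ) * ((univ.filter fun w : Fin m → Bool => ∃ y : List Bool,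
        y.length ≤ m ∧ V (pairBits (List.ofFn w) (pairBits y x)) = [true]).card : ℝ) ≤
        2 ^ m := by linarith
    exact_mod_cast h11

open Classical in
theorem task (h : S_AMP) : S_AMNP := by
  have hc := CC.poly_countable
  have h' : ∀ θ : Alg × Polynomial ℕ × ℕ, ∀ᵐ O ∂randomOracle, ∀ A : Oracle,
      PClose θ.2.2 O A → ∀ᶠ n : ℕ in Filter.atTop, ∀ x : List Bool, x.length = n → ∀ b : Prop,
        3 * Nat.card {r : Fin (θ.2.1.eval n) → Bool //
          ¬ (Ok θ.1 θ.2.1 A x (List.ofFn r) ↔ b)} ≤ 2 ^ θ.2.1.eval n →
        ((range (4 * (tau (qA θ.1 θ.2.1) θ.2.2).eval n)).filter fun i : ℕ =>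
          ¬ (Acc θ.1 θ.2.1 A (sample A ((qA θ.1 θ.2.1).eval n) n (2048 * θ.2.1.eval n) i) x ↔
            b)).card < 2 * (tau (qA θ.1 θ.2.1) θ.2.2).eval n := by
    rintro ⟨M, P, c⟩
    have h0 := ae_samples (fun A r x => Acc M P A r x) (qA M P) (Polynomial.C 2048 * P) c
      (qA_ge M P) (fun n A A' r x hx _ hy => acc_local M P n A A' r x hx hy)
    filter_upwards [h0] with O hO A hA
    filter_upwards [hO A hA] with n hn x hx b hb
    have h1 := hn.2 x hx b
    have e : (Polynomial.C 2048 * P).eval n = 2048 * P.eval n := by simp
    rw [e] at h1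
    have h2 := h (P.eval n) (Ok M P A x) b hb
    have h3 : 256 * Nat.card {r : Fin (2048 * P.eval n) → Bool //
        ¬ (Acc M P A (List.ofFn r) x ↔ b)} ≤ 2 ^ (2048 * P.eval n) := by
      unfold Acc
      rw [hx]
      exact h2
    have h4 := h1 h3
    rw [← card_fin_filter (4 * (tau (qA M P) c).eval n) (fun i : ℕ =>
          ¬ (Acc M P A (sample A ((qA M P).eval n) n (2048 * P.eval n) i) x ↔ b))]
    convert h4
  filter_upwards [ae_all_iff.2 h'] with O hO A hA L hL
  obtain ⟨c, hA⟩ := hA
  obtain ⟨V, P, ⟨M, hM⟩, hL⟩ := hL
  refine isNP_of_votes (V := V) M hM (qA M P) P (tau (qA M P) c) ?_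
  filter_upwards [hO (M, P, c) A hA] with n h1 x hx
  apply h1 x hx (x ∈ L)
  have h4 := am_err (hL x)
  unfold Ok
  simp only [hM, Option.some.injEq]
  rw [hx] at h4 ⊢
  exact h4

end Pool.Agent.W246.AMNP
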